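import Mathlib

/-!
# KU, row G4a: the orthogonal complement of the differences has positive square
-/

set_option autoImplicit false

namespace Pool.Agent.Helper82.KU

open Module

theorem exists_ker {n m : ℕ} (hnm : m < n) (f : (Fin n → ℤ) →ₗ[ℤ] (Fin m → ℤ)) :
    ∃ t, t ≠ 0 ∧ f t = 0 := by
  by_contra hc
  push Not at hc
  have hinj : Function.Injective f := by
    rw [injective_iff_map_eq_zero]
    intro a ha
    by_contra h0
    exact hc a h0 ha
  have := LinearMap.finrank_le_finrank_of_injective hinj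
  rw [Module.finrank_fin_fun, Module.finrank_fin_fun] at this
  omega

/-- G4a: lattice. -/
theorem lattice (inter : LinearMap.BilinForm ℤ (Fin 10 → ℤ)) (symm : ∀ x y, inter x y = inter y x)
    (hodge : ∃ h, 0 < inter h h ∧ ∀ x, inter h x = 0 → x ≠ 0 → inter x x < 0)
    (c : Fin 10 → (Fin 10 → ℤ)) (hc : ∀ i j, i ≠ j → inter (c i - c j) (c i - c j) = -2) :
    ∃ h, 0 < inter h h ∧ ∀ i, inter h (c i) = inter h (c 0) := by
  let D : Fin 9 → (Fin 10 → ℤ) := fun i => c i.succ - c 0
  have hDD : ∀ i, inter (D i) (D i) = -2 := fun i => hc _ _ (Fin.succ_ne_zero i)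
  have hDij : ∀ i j, i ≠ j → inter (D i) (D j) = -1 := by
    intro i j hij
    have h1 : inter (D i - D j) (D i - D j) = -2 := by
      have : D i - D j = c i.succ - c j.succ := by simp only [D]; abel
      rw [this]
      exact hc _ _ (fun h => hij (Fin.succ_injective _ h))
    have h2 : inter (D i - D j) (D i - D j) =
        inter (D i) (D i) + inter (D j) (D j) - 2 * inter (D i) (D j) := by
      simp only [map_sub, LinearMap.sub_apply]
      rw [symm (D j) (D i)]
      ring
    rw [h2, hDD, hDD] at h1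
    linarith
  have hval : ∀ i j, inter (D i) (D j) = if i = j then -2 else -1 := by
    intro i j
    split_ifs with h
    · rw [h]; exact hDD j
    · exact hDij i j h
  -- the square of a combination
  have hsq : ∀ a : Fin 9 → ℤ, inter (∑ i, a i • D i) (∑ i, a i • D i) =
      -(∑ i, a i ^ 2 + (∑ i, a i) ^ 2) := by
    intro a
    have h1 : inter (∑ i, a i • D i) (∑ i, a i • D i) = ∑ i, ∑ j, a i * a j * inter (D i) (D j) := by
      rw [map_sum inter, LinearMap.sum_apply]
      refine Finset.sum_congr rfl fun i _ => ?_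
      rw [map_sum]
      refine Finset.sum_congr rfl fun j _ => ?_
      rw [map_smul, map_smul, LinearMap.smul_apply, smul_eq_mul, smul_eq_mul]
      ring
    have h2 : ∀ i j, a i * a j * inter (D i) (D j) =
        -(if i = j then a i * a j else 0) - a i * a j := by
      intro i j
      rw [hval]
      split_ifs <;> ring
    rw [h1]
    simp only [h2, Finset.sum_sub_distrib, Finset.sum_neg_distrib, Finset.sum_ite_eq,
      Finset.mem_univ, if_true]
    rw [sq (∑ i, a i), Finset.sum_mul_sum]
    simp only [sq]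
    ring
  -- an orthogonal vector
  obtain ⟨x, hx0, hx⟩ := exists_ker (n := 10) (m := 9) (by norm_num)
    (LinearMap.pi fun i => (inter.flip (D i)))
  have hxD : ∀ i, inter x (D i) = 0 := fun i => congrFun hx i
  have hxc : ∀ i, inter x (c i) = inter x (c 0) := by
    intro i
    refine Fin.cases rfl (fun j => ?_) i
    have := hxD j
    simp only [D, map_sub] at this
    linarith
  refine ⟨x, ?_, hxc⟩
  by_contra hneg
  push Not at hneg
  obtain ⟨h, hh, -⟩ := hodge
  obtain ⟨t, ht0, ht⟩ := exists_ker (n := 11) (m := 10) (by norm_num)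
    (Fintype.linearCombination ℤ (Fin.cons h (Fin.cons x D) : Fin 11 → (Fin 10 → ℤ)))
  rw [Fintype.linearCombination_apply, Fin.sum_univ_succ, Fin.sum_univ_succ] at ht
  simp only [Fin.cons_zero, Fin.cons_succ] at ht
  obtain ⟨v, hv⟩ : ∃ v, v = ∑ i : Fin 9, t i.succ.succ • D i := ⟨_, rfl⟩
  rw [← hv] at ht
  have hv2 : inter v v = -(∑ i : Fin 9, t i.succ.succ ^ 2 + (∑ i : Fin 9, t i.succ.succ) ^ 2) := by
    rw [hv]; exact hsq _
  have hxv : inter x v = 0 := by
    rw [hv, map_sum]
    refine Finset.sum_eq_zero fun i _ => ?_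
    rw [map_smul, hxD, smul_zero]
  have hvx : inter v x = 0 := by rw [symm]; exact hxv
  have hsum0 : 0 ≤ ∑ i : Fin 9, t i.succ.succ ^ 2 := Finset.sum_nonneg fun i _ => sq_nonneg _
  have hcomb : t 0 • h = -(t (Fin.succ 0) • x + v) := eq_neg_of_add_eq_zero_left ht
  have hsq2 : t 0 * (t 0 * inter h h) = t (Fin.succ 0) * (t (Fin.succ 0) * inter x x) +
      inter v v := by
    have h1 : inter (t 0 • h) (t 0 • h) = t 0 * (t 0 * inter h h) := by
      rw [map_smul, map_smul, LinearMap.smul_apply, smul_eq_mul, smul_eq_mul]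
    rw [← h1, hcomb]
    simp only [map_neg, map_add, LinearMap.neg_apply, LinearMap.add_apply, map_smul,
      LinearMap.smul_apply, smul_eq_mul, hxv, hvx]
    ring
  have hle : t 0 * (t 0 * inter h h) ≤ 0 := by
    rw [hsq2, hv2]
    have h3 : t (Fin.succ 0) * (t (Fin.succ 0) * inter x x) ≤ 0 := by
      nlinarith [sq_nonneg (t (Fin.succ 0))]
    have h4 : 0 ≤ (∑ i : Fin 9, t i.succ.succ) ^ 2 := sq_nonneg _
    linarith
  have ht00 : t 0 = 0 := by
    by_contra h0
    have h5 : 0 < t 0 ^ 2 := by positivity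
    nlinarith
  have hv0 : inter v v = 0 := by
    have h6 : t (Fin.succ 0) • x + v = 0 := by
      rw [ht00, zero_smul] at hcomb
      rw [← neg_eq_zero, ← hcomb]
    have h7 : v = -(t (Fin.succ 0) • x) := eq_neg_of_add_eq_zero_right h6
    have h8 : inter v v = inter (-(t (Fin.succ 0) • x)) v := congrArg (fun u => inter u v) h7
    rw [h8, map_neg, LinearMap.neg_apply, map_smul, LinearMap.smul_apply, hxv, smul_zero, neg_zero]
  have hall : ∀ i : Fin 9, t i.succ.succ = 0 := by
    have h9 : ∑ i : Fin 9, t i.succ.succ ^ 2 = 0 := by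
      have h4 : 0 ≤ (∑ i : Fin 9, t i.succ.succ) ^ 2 := sq_nonneg _
      linarith
    intro i
    have := (Finset.sum_eq_zero_iff_of_nonneg (fun i _ => sq_nonneg (t i.succ.succ))).mp h9 i
      (Finset.mem_univ i)
    exact pow_eq_zero_iff (two_ne_zero) |>.mp this
  have hvv : v = 0 := by
    rw [hv]
    exact Finset.sum_eq_zero fun i _ => by rw [hall i, zero_smul]
  have ht1 : t (Fin.succ 0) = 0 := by
    rw [ht00, zero_smul, hvv, add_zero] at hcomb
    have h10 : t (Fin.succ 0) • x = 0 := by rw [← neg_eq_zero, ← hcomb]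
    rcases smul_eq_zero.mp h10 with h11 | h11
    · exact h11
    · exact absurd h11 hx0
  apply ht0
  funext i
  refine Fin.cases ht00 (fun j => ?_) i
  exact Fin.cases ht1 (fun k => hall k) j

end Pool.Agent.Helper82.KU
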