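import Pool.Agent.Helper6.NS.Geo

/-!
# KU, row G5: from the textbook facts to the structure `EnriquesType`
-/

set_option autoImplicit false

namespace Pool.Agent.Helper82.KU

open CategoryTheory CategoryTheory.Limits CategoryTheory.Pretriangulated Module
open CategoryTheory.Triangulated
open Pool.Agent.Helper6.KE Pool.Agent.Helper6.NS

section lin

/-- the unit vectors -/
def un (i : Fin 10) : Fin 10 → ℤ := fun j => if i = j then 1 else 0

/-- the real extension of an integral bilinear form -/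
noncomputable def ext (B : LinearMap.BilinForm ℤ (Fin 10 → ℤ)) (a b : Fin 10 → ℝ) : ℝ :=
  ∑ i, ∑ j, a i * b j * (B (un i) (un j) : ℝ)

theorem ext_int (B : LinearMap.BilinForm ℤ (Fin 10 → ℤ)) (x y : Fin 10 → ℤ) :
    ext B (fun i => (x i : ℝ)) (fun i => (y i : ℝ)) = (B x y : ℝ) := by
  have hx : x = ∑ i, x i • un i := pi_eq_sum_univ x
  have hy : y = ∑ i, y i • un i := pi_eq_sum_univ y
  have h1 : B x y = ∑ i, ∑ j, x i * y j * B (un i) (un j) := by
    conv_lhs => rw [hx, hy]
    rw [map_sum B, LinearMap.sum_apply]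
    refine Finset.sum_congr rfl fun i _ => ?_
    rw [map_sum]
    refine Finset.sum_congr rfl fun j _ => ?_
    rw [map_smul, map_smul, LinearMap.smul_apply, smul_eq_mul, smul_eq_mul]
    ring
  rw [h1]
  push_cast
  rfl

theorem ext_symm (B : LinearMap.BilinForm ℤ (Fin 10 → ℤ)) (hB : ∀ x y, B x y = B y x)
    (a b : Fin 10 → ℝ) : ext B a b = ext B b a := by
  unfold ext
  rw [Finset.sum_comm]
  refine Finset.sum_congr rfl fun i _ => Finset.sum_congr rfl fun j _ => ?_
  rw [hB]
  ring

theorem ext_add_left (B : LinearMap.BilinForm ℤ (Fin 10 → ℤ)) (a a' b : Fin 10 → ℝ) :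
    ext B (fun i => a i + a' i) b = ext B a b + ext B a' b := by
  unfold ext
  simp only [add_mul, Finset.sum_add_distrib]

theorem ext_smul_left (B : LinearMap.BilinForm ℤ (Fin 10 → ℤ)) (c : ℝ) (a b : Fin 10 → ℝ) :
    ext B (fun i => c * a i) b = c * ext B a b := by
  unfold ext
  simp only [mul_assoc, Finset.mul_sum]

theorem ext_add_right (B : LinearMap.BilinForm ℤ (Fin 10 → ℤ)) (a b b' : Fin 10 → ℝ) :
    ext B a (fun i => b i + b' i) = ext B a b + ext B a b' := by
  unfold ext
  simp only [mul_add, add_mul, Finset.sum_add_distrib]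

theorem ext_smul_right (B : LinearMap.BilinForm ℤ (Fin 10 → ℤ)) (c : ℝ) (a b : Fin 10 → ℝ) :
    ext B a (fun i => c * b i) = c * ext B a b := by
  unfold ext
  simp only [Finset.mul_sum]
  refine Finset.sum_congr rfl fun i _ => Finset.sum_congr rfl fun j _ => ?_
  ring

/-- the last ten coordinates -/
def tl (x : Fin 12 → ℝ) : Fin 10 → ℝ := fun i => x i.succ.succ

/-- the Euler form -/
noncomputable def eform (B : LinearMap.BilinForm ℤ (Fin 10 → ℤ)) :
    LinearMap.BilinForm ℝ (Fin 12 → ℝ) :=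
  LinearMap.mk₂ ℝ (fun x y => x 0 * y 1 + y 0 * x 1 - ext B (tl x) (tl y) + x 0 * y 0)
    (fun x x' y => by
      have : tl (x + x') = fun i => tl x i + tl x' i := rfl
      simp only [this, ext_add_left, Pi.add_apply]
      ring)
    (fun c x y => by
      have : tl (c • x) = fun i => c * tl x i := rfl
      simp only [this, ext_smul_left, Pi.smul_apply, smul_eq_mul]
      ring)
    (fun x y y' => by
      have : tl (y + y') = fun i => tl y i + tl y' i := rfl
      simp only [this, ext_add_right, Pi.add_apply]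
      ring)
    (fun c x y => by
      have : tl (c • y) = fun i => c * tl y i := rfl
      simp only [this, ext_smul_right, Pi.smul_apply, smul_eq_mul]
      ring)

theorem eform_apply (B : LinearMap.BilinForm ℤ (Fin 10 → ℤ)) (x y : Fin 12 → ℝ) :
    eform B x y = x 0 * y 1 + y 0 * x 1 - ext B (tl x) (tl y) + x 0 * y 0 := rfl

/-- the vector with the coordinates `r`, `s`, `c` -/
def vec (r s : ℝ) (c : Fin 10 → ℝ) : Fin 12 → ℝ := Fin.cons r (Fin.cons s c)

theorem vec_zero (r s : ℝ) (c : Fin 10 → ℝ) : vec r s c 0 = r := rfl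
theorem vec_one (r s : ℝ) (c : Fin 10 → ℝ) : vec r s c 1 = s := rfl
theorem tl_vec (r s : ℝ) (c : Fin 10 → ℝ) : tl (vec r s c) = c := rfl

/-- the plane -/
noncomputable def plm (h : Fin 10 → ℤ) : (ℝ × ℝ) →ₗ[ℝ] (Fin 12 → ℝ) where
  toFun p := vec p.2 (-p.2) (fun i => p.1 * (h i : ℝ))
  map_add' p q := by
    funext i
    refine Fin.cases rfl (fun j => ?_) i
    refine Fin.cases ?_ (fun k => ?_) j
    · show -(p.2 + q.2) = -p.2 + -q.2
      ring
    · show (p.1 + q.1) * (h k : ℝ) = p.1 * h k + q.1 * h k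
      ring
  map_smul' c p := by
    funext i
    refine Fin.cases rfl (fun j => ?_) i
    refine Fin.cases ?_ (fun k => ?_) j
    · show -(c * p.2) = c * -p.2
      ring
    · show (c * p.1) * (h k : ℝ) = c * (p.1 * h k)
      ring

theorem plane_exists (B : LinearMap.BilinForm ℤ (Fin 10 → ℤ)) (h : Fin 10 → ℤ) (hh : 0 < B h h) :
    ∃ P : Submodule ℝ (Fin 12 → ℝ), finrank ℝ P = 2 ∧ ∀ x ∈ P, x ≠ 0 → eform B x x < 0 := by
  have hneg : ∀ p : ℝ × ℝ, p ≠ 0 → eform B (plm h p) (plm h p) < 0 := by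
    intro p hp
    have h1 : eform B (plm h p) (plm h p) = p.2 * (-p.2) + p.2 * (-p.2) -
        p.1 * (p.1 * (B h h : ℝ)) + p.2 * p.2 := by
      have h2 : ext B (fun i => p.1 * (h i : ℝ)) (fun i => p.1 * (h i : ℝ)) =
          p.1 * (p.1 * (B h h : ℝ)) := by
        rw [ext_smul_left, ext_smul_right, ext_int]
      rw [← h2]
      rfl
    have hBr : (0 : ℝ) < (B h h : ℝ) := by exact_mod_cast hh
    rw [h1]
    by_cases h2 : p.1 = 0
    · have h3 : p.2 ≠ 0 := fun h4 => hp (Prod.ext h2 h4)
      have h5 : 0 < p.2 ^ 2 := by positivity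
      rw [h2]
      nlinarith
    · have h5 : 0 < p.1 ^ 2 := by positivity
      have h6 : 0 < p.1 ^ 2 * (B h h : ℝ) := mul_pos h5 hBr
      nlinarith [sq_nonneg p.2]
  have hinj : Function.Injective (plm h) := by
    rw [injective_iff_map_eq_zero]
    intro p hp
    by_contra h0
    have := hneg p h0
    rw [hp, map_zero] at this
    exact lt_irrefl _ this
  refine ⟨LinearMap.range (plm h), ?_, ?_⟩
  · rw [LinearMap.finrank_range_of_inj hinj]
    simp
  · rintro _ ⟨p, rfl⟩ hx
    exact hneg p (fun h0 => hx (by rw [h0, map_zero]))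

end lin

universe v₁ u₁ v u w

variable {C : Type u} [Category.{v} C] [Preadditive C] [HasZeroObject C] [HasShift C ℤ]
  [∀ n : ℤ, (shiftFunctor C n).Additive] [Pretriangulated C]
  {K : Type w} [Field K] [Linear K C] [∀ n : ℤ, (shiftFunctor C n).Linear K]
  {A : Type u₁} [Category.{v₁} A] [Abelian A]

/-- G5 -/
theorem exists_enriques (X : Unnodal (C := C) K A) :
    ∃ D : EnriquesType K C, D.W = X.D.W ∧ ClsAdditive D := by
  obtain ⟨h, hh, -⟩ := X.N.hodge
  let D : EnriquesType K C :=
    { homFinite := X.D.homFinite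
      extFinite := X.D.extFinite
      W := X.D.W
      commShift := X.D.commShift
      sq := X.D.sq
      tr := X.D.tr
      tr_comm := X.D.tr_comm
      left := X.D.left
      right := X.D.right
      cls := fun Y => vec (X.N.rk Y) (X.N.ch₂ Y) (fun i => (X.N.c₁ Y i : ℝ))
      form := eform X.N.inter
      form_symm := fun x y => by
        rw [eform_apply, eform_apply, ext_symm X.N.inter X.N.symm]
        ring
      form_cls := fun Y Z => by
        rw [eform_apply, vec_zero, vec_one, vec_zero, vec_one, tl_vec, tl_vec, ext_int,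
          X.N.riemannRoch]
      plane := plane_exists X.N.inter h hh }
  refine ⟨D, rfl, fun T hT => ?_⟩
  show vec _ _ _ = vec _ _ _ + vec _ _ _
  funext i
  refine Fin.cases ?_ (fun j => ?_) i
  · show (X.N.rk T.obj₂ : ℝ) = X.N.rk T.obj₁ + X.N.rk T.obj₃
    rw [X.N.rk_add T hT]
    push_cast
    rfl
  · refine Fin.cases ?_ (fun k => ?_) j
    · show X.N.ch₂ T.obj₂ = X.N.ch₂ T.obj₁ + X.N.ch₂ T.obj₃
      exact X.N.ch₂_add T hT
    · show (X.N.c₁ T.obj₂ k : ℝ) = X.N.c₁ T.obj₁ k + X.N.c₁ T.obj₃ k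
      rw [X.N.c₁_add T hT, Pi.add_apply]
      push_cast
      rfl

end Pool.Agent.Helper82.KU
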